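import Pool.Agent.HEC.Stmts
import Pool.Agent.Helper42_HEC.Alt

set_option autoImplicit false

open Finset

namespace Pool.Agent.HEC.H3

theorem card_pairs {V : Type} [Fintype V] [DecidableEq V] (S : Finset (Sym2 V))
    (hS : ∀ e ∈ S, ¬ e.IsDiag) :
    (univ.filter (fun p : V × V => s(p.1, p.2) ∈ S)).card = 2 * S.card := by
  rw [Finset.card_eq_sum_card_fiberwise (f := fun p : V × V => s(p.1, p.2)) (t := S)]
  · rw [Finset.sum_const_nat (m := 2), mul_comm]
    intro e he
    induction e using Sym2.ind with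
    | _ a b =>
      have hab : a ≠ b := fun h => hS _ he (Sym2.mk_isDiag_iff.2 h)
      have h1 : ((univ.filter (fun p : V × V => s(p.1, p.2) ∈ S)).filter
          (fun p : V × V => s(p.1, p.2) = s(a, b))) = {(a, b), (b, a)} := by
        ext p
        obtain ⟨u, v⟩ := p
        simp only [mem_filter, mem_univ, true_and, mem_insert, mem_singleton, Prod.mk.injEq,
          Sym2.eq_iff]
        constructor
        · rintro ⟨-, h⟩
          exact h
        · intro h
          refine ⟨?_, h⟩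
          have : s(u, v) = s(a, b) := Sym2.eq_iff.2 h
          rw [this]
          exact he
      rw [h1, Finset.card_pair]
      intro h
      exact hab (Prod.mk.inj h).1
  · intro p hp
    exact (mem_filter.1 hp).2

theorem bd_eq {V : Type} [Fintype V] [DecidableEq V] (y : Sym2 V → ℤ) (v : V) :
    bd (fun a b => y s(a, b)) v = H42.Bd y v := by
  unfold bd H42.Bd
  have h1 : (univ.filter (fun e : Sym2 V => v ∈ e)) = univ.image (fun w : V => s(v, w)) := by
    ext e
    simp only [mem_filter, mem_univ, true_and, mem_image]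
    constructor
    · intro h
      obtain ⟨w, hw⟩ := h
      exact ⟨w, hw.symm⟩
    · rintro ⟨w, rfl⟩
      exact Sym2.mem_mk_left v w
  rw [h1, Finset.sum_image]
  intro a _ b _ h
  exact Sym2.congr_right.1 h

theorem num (n D N r : ℕ) (hn : 1 ≤ n)
    (h : 96 * n + 2 * D + 8 * (2 * r) * (2 * r + 1) ^ 2 * (2 * (2 * r) + 1) ≤ 2 * N) :
    40 * n + D + 8 * r ^ 4 + 8 * r ^ 2 < N := by
  have h1 : 8 * (2 * r) * (2 * r + 1) ^ 2 * (2 * (2 * r) + 1) =
      256 * r ^ 4 + 320 * r ^ 3 + 128 * r ^ 2 + 16 * r := by ring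
  rw [h1] at h
  generalize r ^ 4 = a at h ⊢
  generalize r ^ 3 = b at h ⊢
  generalize r ^ 2 = c at h ⊢
  omega

theorem exa (h : Pool.Agent.HEC.H42.AltExa) : ExaStmt := by
  classical
  intro V _ F U D L hU hne hL hD h2 h3
  let F' : Finset (Sym2 V) := univ.filter (fun e => e ∈ F.edgeSet)
  have hmem : ∀ a b, s(a, b) ∈ F' ↔ F.Adj a b := by
    intro a b
    simp [F']
  have hdiag : ∀ e ∈ F', ¬ e.IsDiag := by
    intro e he
    exact F.not_isDiag_of_mem_edgeSet (mem_filter.1 he).2
  have he2 : e2 F = 2 * F'.card := by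
    rw [← card_pairs F' hdiag]
    unfold e2 cnt
    congr 1
    ext p
    simp only [mem_filter, mem_univ, true_and]
    exact (hmem p.1 p.2).symm
  have hUs : ∀ e ∈ F', ∀ x ∈ e, x ∈ U := by
    intro e he x hx
    obtain ⟨w, rfl⟩ := hx
    exact hU x w ((hmem x w).1 he)
  have hL' : L = 2 * (Nat.log 2 U.card + 1) := by
    rw [hL]
    unfold len
    ring
  have hUc : 1 ≤ U.card := hne.card_pos
  have hcond : 40 * U.card + D + 8 * (Nat.log 2 U.card + 1) ^ 4 +
      8 * (Nat.log 2 U.card + 1) ^ 2 < F'.card := by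
    apply num _ _ _ _ hUc
    rw [he2, hL'] at h3
    exact h3
  have hDL : 8 * (Nat.log 2 U.card + 1) ^ 2 ≤ D := by
    rw [hL'] at h2
    calc 8 * (Nat.log 2 U.card + 1) ^ 2 = 2 * (2 * (Nat.log 2 U.card + 1)) ^ 2 := by ring
      _ ≤ D := h2
  obtain ⟨y, hy1, hy2, hy3, hy4⟩ := h V F' U D hUs hdiag hD hDL hcond
  refine ⟨fun a b => y s(a, b), ⟨?_, ?_, ?_⟩, ?_, ?_⟩
  · intro u v
    change y s(u, v) = y s(v, u)
    rw [Sym2.eq_swap]
  · intro u v huv
    exact hy2 _ fun h' => huv ((hmem u v).1 h')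
  · intro u v
    change -1 ≤ y s(u, v) ∧ y s(u, v) ≤ 1
    rcases hy1 s(u, v) with h' | h' | h' <;> rw [h'] <;> constructor <;> norm_num
  · intro v
    rw [bd_eq, hy3]
  · have hdiag2 : ∀ e ∈ univ.filter (fun e => y e ≠ 0), ¬ e.IsDiag := by
      intro e he
      have h5 := (mem_filter.1 he).2
      apply hdiag e
      by_contra h6
      exact h5 (hy2 e h6)
    have h7 := card_pairs _ hdiag2
    rw [hy4] at h7
    rw [← h7]
    unfold sz cnt
    congr 1
    ext p
    simp only [mem_filter, mem_univ, true_and]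

end Pool.Agent.HEC.H3
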